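import Mathlib

set_option autoImplicit false

namespace Pool.Agent.Results.MP_c65526_co.Poly

open Finset SimpleGraph Matrix Classical

theorem grow {V : Type} [Fintype V] (q : V → ℝ) (m z : V) (c : ℝ) (hc : 0 ≤ c)
    (h : ∀ s, q m ≤ s → s < q z → ∃ y, s < q y ∧ q y ≤ s + c) :
    q z ≤ q m + (Fintype.card V - 1) * c := by
  have k : ∀ k : ℕ, q m + k * c < q z → k + 1 ≤ #{y | q y ≤ q m + k * c} := fun k => by
    induction k with
    | zero => exact fun _ => card_pos.2 ⟨m, by simp⟩
    | succ k ih =>
      intro l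
      push_cast at l ⊢
      have l' : q m + k * c < q z := by linarith
      obtain ⟨y, a, b⟩ := h _ (by have := mul_nonneg k.cast_nonneg hc; linarith) l'
      refine (ih l').trans_lt (card_lt_card ⟨fun x hx => ?_, fun s => ?_⟩)
      · simp only [mem_filter, mem_univ, true_and] at hx ⊢
        linarith
      · have := s (mem_filter.2 ⟨mem_univ y, by linarith⟩)
        exact a.not_ge (mem_filter.1 this).2
  by_contra l
  obtain ⟨n, hn⟩ := Nat.exists_eq_succ_of_ne_zero (Fintype.card_pos_iff.2 ⟨m⟩).ne'
  rw [hn] at l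
  push_cast at l
  rw [add_sub_cancel_right, not_le] at l
  have := (k n l).trans_lt (card_lt_card (filter_ssubset.2 ⟨z, mem_univ _, l.not_ge⟩))
  simp [hn] at this

theorem cut {V : Type} [Fintype V] (H : SimpleGraph V) (hH : H.Connected) (q : V → ℝ) (l : ℝ)
    (e : H.adjMatrix ℝ *ᵥ q = l • q) (s : ℝ) (m z : V) (hm : q m ≤ s) (hz : s < q z) :
    ∃ y, s < q y ∧ q y ≤ s + ∑ x with q x ≤ s, (l - H.degree x) * q x := by
  obtain ⟨p⟩ := hH.preconnected m z
  obtain ⟨⟨⟨x, y⟩, a⟩, -, hx, hy⟩ := p.exists_boundary_dart {x | q x ≤ s} hm hz.not_ge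
  replace hx : q x ≤ s := hx
  replace hy : s < q y := not_le.1 hy
  refine ⟨y, hy, ?_⟩
  have f : ∀ x, (l - H.degree x) * q x = ∑ y, if H.Adj x y then q y - q x else 0 := fun x => by
    have := congrFun e x
    rw [adjMatrix_mulVec_apply, Pi.smul_apply, smul_eq_mul] at this
    rw [← sum_filter, ← neighborFinset_eq_filter, sum_sub_distrib, this, sum_const,
      card_neighborFinset_eq_degree, nsmul_eq_mul, sub_mul]
  have z : ∑ x with q x ≤ s, ∑ y with q y ≤ s, (if H.Adj x y then q y - q x else 0) = 0 := by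
    have : ∑ x with q x ≤ s, ∑ y with q y ≤ s, (if H.Adj x y then q y - q x else 0) =
        -∑ x with q x ≤ s, ∑ y with q y ≤ s, (if H.Adj x y then q y - q x else 0) := by
      conv_lhs => rw [sum_comm]
      simp only [← sum_neg_distrib]
      refine sum_congr rfl fun x _ => sum_congr rfl fun y _ => ?_
      rw [H.adj_comm]
      split_ifs <;> ring
    linarith
  have nn : ∀ x ∈ ({x | q x ≤ s} : Finset V), ∀ y ∈ ({y | ¬ q y ≤ s} : Finset V),
      0 ≤ if H.Adj x y then q y - q x else 0 := fun x hx y hy => by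
    have := (mem_filter.1 hx).2
    have := (mem_filter.1 hy).2
    split_ifs <;> linarith
  rw [sum_congr rfl fun x _ => (f x).trans (sum_filter_add_sum_filter_not _ (q · ≤ s) _).symm,
    sum_add_distrib, z, zero_add]
  have hx' : x ∈ ({x | q x ≤ s} : Finset V) := mem_filter.2 ⟨mem_univ x, hx⟩
  have := (single_le_sum (nn x hx') (mem_filter.2 ⟨mem_univ y, hy.not_ge⟩)).trans
    (single_le_sum (fun x hx => sum_nonneg (nn x hx)) hx')
  rw [if_pos a] at this
  linarith

theorem result {V : Type} [Fintype V] (G : SimpleGraph V) (d : ℕ) (hd : G.IsRegularOfDegree d)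
    (u v : V) (huv : G.Adj u v) (H : SimpleGraph V) (hH : H = G.deleteEdges {s(u, v)})
    (hc : H.Connected) (q : V → ℝ) (hq : ∀ x, 0 < q x) (l : ℝ) (e : H.adjMatrix ℝ *ᵥ q = l • q)
    (x y : V) :
    q x / q y ≤ (Fintype.card V : ℝ) ^ 2 := by
  obtain ⟨m, -, hm⟩ := exists_min_image univ q ⟨u, mem_univ _⟩
  replace hH : ∀ x y, H.Adj x y ↔ G.Adj x y ∧ s(x, y) ≠ s(u, v) := by simp [hH]
  have sub : ∀ x, H.neighborFinset x ⊆ G.neighborFinset x := fun x y => by
    simpa using fun h => ((hH _ _).1 h).1
  have ld : l ≤ d := by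
    obtain ⟨w, -, hw⟩ := exists_max_image univ q ⟨u, mem_univ _⟩
    have := congrFun e w
    rw [adjMatrix_mulVec_apply, Pi.smul_apply, smul_eq_mul] at this
    have a := sum_le_card_nsmul (H.neighborFinset w) q _ fun x _ => hw x (mem_univ _)
    have b : (#(H.neighborFinset w) : ℝ) ≤ d := Nat.cast_le.2 ((card_le_card (sub w)).trans_eq (hd w))
    rw [this, nsmul_eq_mul] at a
    exact (le_of_mul_le_mul_right a (hq w)).trans b
  have dg : ∀ x, (l - H.degree x) * q x ≤ (if x = u then q x else 0) + if x = v then q x else 0 := by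
    intro x
    have k : ∀ t : Finset V, (∀ y, G.Adj x y → y ∉ t → s(x, y) ≠ s(u, v)) →
        (l - H.degree x) * q x ≤ #t * q x := fun t ht => by
      have : G.neighborFinset x \ t ⊆ H.neighborFinset x := fun y => by
        simpa only [mem_sdiff, mem_neighborFinset, hH] using fun h => ⟨h.1, ht y h.1 h.2⟩
      have a := (le_card_sdiff _ _).trans (card_le_card this)
      rw [card_neighborFinset_eq_degree, card_neighborFinset_eq_degree, hd x,
        tsub_le_iff_left] at a
      have : (d : ℝ) ≤ #t + H.degree x := by exact_mod_cast a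
      exact mul_le_mul_of_nonneg_right (by linarith) (hq x).le
    have n := huv.ne
    split_ifs with a b b
    · exact absurd (a.symm.trans b) n
    · simpa using k {v} (by simp +contextual [a, n])
    · simpa using k {u} (by simp +contextual [b, n.symm])
    · simpa using k ∅ (by simp [a, b])
  have st : ∀ z s, q m ≤ s → s < q z → ∃ y, s < q y ∧
      q y ≤ s + ((if q u ≤ s then q u else 0) + if q v ≤ s then q v else 0) := fun z s a b => by
    obtain ⟨y, p, r⟩ := cut H hc q l e s m z a b
    refine ⟨y, p, r.trans (add_le_add_right ((sum_le_sum fun x _ => dg x).trans_eq ?_) _)⟩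
    simp [sum_add_distrib]
  have n1 : (1 : ℝ) ≤ Fintype.card V := Nat.one_le_cast.2 (Fintype.card_pos_iff.2 ⟨u⟩)
  have main : ∀ u v : V, q u ≤ q v → (∀ z s, q m ≤ s → s < q z → ∃ y, s < q y ∧
      q y ≤ s + ((if q u ≤ s then q u else 0) + if q v ≤ s then q v else 0)) →
      q x ≤ (Fintype.card V : ℝ) ^ 2 * q m := fun u v uv st => by
    have a := grow q m u 0 le_rfl fun s a b => by
      simpa [b.not_ge, (b.trans_le uv).not_ge] using st u s a b
    have b := grow q m v (q u) (hq u).le fun s a b => (st v s a b).imp fun y h => ⟨h.1, h.2.trans (by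
      have := hq u
      rw [if_neg b.not_ge]
      split_ifs <;> linarith)⟩
    have c := grow q m x (q u + q v) (add_pos (hq u) (hq v)).le fun s a b => (st x s a b).imp
      fun y h => ⟨h.1, h.2.trans (by
        have := hq u
        have := hq v
        split_ifs <;> linarith)⟩
    rw [mul_zero, add_zero] at a
    have b' := mul_le_mul_of_nonneg_left a (sub_nonneg.2 n1)
    have c' := mul_le_mul_of_nonneg_left (b.trans (add_le_add_right b' _)) (sub_nonneg.2 n1)
    nlinarith
  rw [div_le_iff₀ (hq y)]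
  refine le_trans ?_ (mul_le_mul_of_nonneg_left (hm y (mem_univ _)) (sq_nonneg _))
  obtain h | h := le_total (q u) (q v)
  exacts [main u v h st, main v u h fun z s a b => by simpa only [add_comm] using st z s a b]

end Pool.Agent.Results.MP_c65526_co.Poly
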